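import Pool.Agent.PFE.StmtsE1

/-!
# Squad PFE, row NFR (helper77): `N_x` in terms of the frame
-/

open scoped BigOperators

noncomputable section

namespace Pool.Agent.PFE.H77

open Pool.Agent.PFC.B1 (FS Split)
open Pool.Agent.PFD (RF FotStmt)

section

variable {R A X : Type} [CommRing R] [Ring A] [Algebra R A] [Group X] {y : A} {l : ℕ}
  {χ : X →* R}

/-- `Tx` as a linear map -/
def TxL (y : A) (l : ℕ) (c : R) : A →ₗ[R] A where
  toFun := Tx y l c
  map_add' a b := by
    unfold Tx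
    rw [← Finset.sum_add_distrib]
    refine Finset.sum_congr rfl fun j _ => ?_
    rw [mul_add, add_mul, smul_add]
  map_smul' r a := by
    unfold Tx
    rw [RingHom.id_apply, Finset.smul_sum]
    refine Finset.sum_congr rfl fun j _ => ?_
    rw [mul_smul_comm, smul_mul_assoc, smul_comm]

theorem TxL_apply (y : A) (l : ℕ) (c : R) (a : A) : TxL y l c a = Tx y l c a := rfl

/-- commuting with the powers of `y` -/
theorem swap {c : R} {a : A} (hc : c ^ (l - 1) = 1) (ha : ∀ j, y ^ j * a = c ^ j • (a * y ^ j))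
    {m : ℕ} (hm : m ≤ l - 1) : a * y ^ m = c ^ (l - 1 - m) • (y ^ m * a) := by
  rw [ha m, smul_smul, ← pow_add, Nat.sub_add_cancel hm, hc, one_smul]

theorem pow_zero_of_le (hy : y ^ l = 0) {n : ℕ} (hn : l ≤ n) : y ^ n = 0 :=
  pow_eq_zero_of_le hn hy

/-- the free part -/
theorem free_part (hy : y ^ l = 0) {c : R} (hc : c ^ (l - 1) = 1) {a : A}
    (ha : ∀ j, y ^ j * a = c ^ j • (a * y ^ j)) (lam : A →ₗ[R] R) (h' h : A) :
    ∑ i ∈ Finset.range l, ∑ k ∈ Finset.range l,
      lam (h' * (y ^ (l - 1 - i) * a * y ^ (l - 1 - k))) • (y ^ i * h * y ^ k) =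
    ∑ s ∈ Finset.range l, (c ^ s * lam (h' * y ^ (l - 1 - s) * a)) • Tx y l c (h * y ^ s) := by
  simp only [Tx, Finset.smul_sum]
  rw [Finset.sum_comm (s := Finset.range l) (t := Finset.range l)
    (f := fun s j => (c ^ s * lam (h' * y ^ (l - 1 - s) * a)) •
      c ^ (l - 1 - j) • (y ^ j * (h * y ^ s) * y ^ (l - 1 - j)))]
  refine Finset.sum_congr rfl fun j hj => ?_
  have hj' : j < l := Finset.mem_range.1 hj
  have e1 : ∑ k ∈ Finset.range l,
      lam (h' * (y ^ (l - 1 - j) * a * y ^ (l - 1 - k))) • (y ^ j * h * y ^ k) =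
      ∑ k ∈ Finset.Ico (l - 1 - j) l,
        lam (h' * (y ^ (l - 1 - j) * a * y ^ (l - 1 - k))) • (y ^ j * h * y ^ k) := by
    symm
    refine Finset.sum_subset ?_ ?_
    · intro k hk
      exact Finset.mem_range.2 (Finset.mem_Ico.1 hk).2
    · intro k hk hk2
      have hk' : k < l := Finset.mem_range.1 hk
      have hk3 : k < l - 1 - j := by
        by_contra hcon
        exact hk2 (Finset.mem_Ico.2 ⟨not_lt.1 hcon, hk'⟩)
      have e2 : y ^ (l - 1 - j) * a * y ^ (l - 1 - k) = 0 := by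
        rw [mul_assoc, swap hc ha (by omega : l - 1 - k ≤ l - 1), mul_smul_comm, ← mul_assoc,
          ← pow_add, pow_zero_of_le hy (by omega), zero_mul, smul_zero]
      rw [e2, mul_zero, map_zero, zero_smul]
  have e3 : ∑ s ∈ Finset.range l, (c ^ s * lam (h' * y ^ (l - 1 - s) * a)) •
      c ^ (l - 1 - j) • (y ^ j * (h * y ^ s) * y ^ (l - 1 - j)) =
      ∑ s ∈ Finset.range (j + 1), (c ^ s * lam (h' * y ^ (l - 1 - s) * a)) •
      c ^ (l - 1 - j) • (y ^ j * (h * y ^ s) * y ^ (l - 1 - j)) := by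
    symm
    refine Finset.sum_subset ?_ ?_
    · intro s hs
      have := Finset.mem_range.1 hs
      exact Finset.mem_range.2 (by omega)
    · intro s hs hs2
      have hs' : j < s := by
        by_contra hcon
        exact hs2 (Finset.mem_range.2 (by omega))
      have e4 : y ^ j * (h * y ^ s) * y ^ (l - 1 - j) = 0 := by
        rw [mul_assoc, mul_assoc h, ← pow_add,
          pow_zero_of_le (n := s + (l - 1 - j)) hy (by omega), mul_zero, mul_zero]
      rw [e4, smul_zero, smul_zero]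
  rw [e1, e3, Finset.sum_Ico_eq_sum_range, show l - (l - 1 - j) = j + 1 by omega]
  refine Finset.sum_congr rfl fun s hs => ?_
  have hs' : s < j + 1 := Finset.mem_range.1 hs
  have e5 : l - 1 - (l - 1 - j + s) = j - s := by omega
  have e6 : y ^ (l - 1 - j) * a * y ^ (j - s) = (c ^ s * c ^ (l - 1 - j)) •
      (y ^ (l - 1 - s) * a) := by
    rw [mul_assoc, swap hc ha (by omega : j - s ≤ l - 1), mul_smul_comm, ← mul_assoc,
      ← pow_add, ← pow_add, show l - 1 - (j - s) = s + (l - 1 - j) by omega,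
      show l - 1 - j + (j - s) = l - 1 - s by omega]
  have e7 : y ^ j * h * y ^ (l - 1 - j + s) = y ^ j * (h * y ^ s) * y ^ (l - 1 - j) := by
    rw [mul_assoc, mul_assoc, mul_assoc, ← pow_add, add_comm s]
  rw [e5, e6, e7, mul_smul_comm, map_smul, smul_eq_mul, smul_smul, mul_assoc h']
  congr 1
  ring

end

theorem nfr (txr : TxrStmt) : NfrStmt := by
  intro R A X J Ω Ω' _ _ _ _ _ _ _ _ y l χ D
  have hl1 : 1 ≤ l := le_trans (by norm_num) D.hl
  obtain ⟨-, -, -, -, t5, t6, -⟩ := txr R A X y l χ hl1 D.yl D.χl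
  have hone : ∀ x : X, χ x * χ x⁻¹ = 1 := fun x => by rw [← map_mul, mul_inv_cancel, map_one]
  have hne : ∀ (x : X) (o : Ω), D.deg o ≠ x → x * (D.deg o)⁻¹ ≠ 1 := fun x o h h2 =>
    h (mul_inv_eq_one.1 h2).symm
  -- (1)
  have h1 : ∀ x a, a ∈ Nx y χ x → ∀ o k, D.deg o ≠ x → 1 ≤ k →
      D.d.lam (D.g' o * y ^ k * a) = 0 := by
    intro x a ha o k ho hk
    obtain ⟨k, rfl⟩ : ∃ m, k = m + 1 := ⟨k - 1, by omega⟩
    have ha' : y * a = χ x • (a * y) := ha
    set L := D.d.lam (y * D.g' o * y ^ k * a) with hL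
    have e1 : D.d.lam (D.g' o * y ^ (k + 1) * a) = χ x * L := by
      have e2 : D.g' o * y ^ (k + 1) * a = χ x • ((D.g' o * y ^ k * a) * y) := by
        rw [pow_succ, mul_assoc, mul_assoc, ha', mul_smul_comm, mul_smul_comm]
        congr 1
        noncomm_ring
      rw [e2, map_smul, smul_eq_mul, D.ds, hL]
      congr 2
      noncomm_ring
    have e3 : D.d.lam (D.g' o * y ^ (k + 1) * a) = χ (D.deg o) * L := by
      have e4 : D.g' o * y ^ (k + 1) * a = χ (D.deg o) • (y * D.g' o * y ^ k * a) := by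
        rw [pow_succ', ← mul_assoc (D.g' o), D.g'y, smul_mul_assoc, smul_mul_assoc]
      rw [e4, map_smul, smul_eq_mul]
    have hu := D.χu _ (hne x o ho)
    have e5 : (1 - χ (x * (D.deg o)⁻¹)) * (χ (D.deg o) * L) = 0 := by
      have e6 : χ (x * (D.deg o)⁻¹) * χ (D.deg o) = χ x := by
        rw [← map_mul, inv_mul_cancel_right]
      calc (1 - χ (x * (D.deg o)⁻¹)) * (χ (D.deg o) * L)
          = χ (D.deg o) * L - χ (x * (D.deg o)⁻¹) * χ (D.deg o) * L := by ring
        _ = 0 := by rw [e6, ← e1, ← e3, sub_self]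
    rw [e3]
    exact (hu.mul_right_eq_zero).1 e5
  -- (2)
  have h2 : ∀ x a, a ∈ Nx y χ x → ∃ b, a = (∑ o, if D.deg o = x then ∑ i ∈ Finset.range l,
      D.d.lam (D.g' o * y ^ (l - 1 - i) * a) • (y ^ i * D.g o) else 0) + Tx y l (χ x) b := by
    intro x a ha
    have haj := (t5 x a ha).2.2
    refine ⟨(∑ o, if D.deg o = x then 0 else D.d.lam (D.g' o * a) • D.g o) +
      ∑ o, ∑ s ∈ Finset.range l, (χ x ^ s * D.d.lam (D.h' o * y ^ (l - 1 - s) * a)) •
        (D.h o * y ^ s), ?_⟩
    have hT : ∀ b, Tx y l (χ x) b = TxL y l (χ x) b := fun b => rfl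
    rw [hT, map_add, map_sum, map_sum]
    conv_lhs => rw [← D.fr a]
    rw [← add_assoc, ← Finset.sum_add_distrib]
    congr 1
    · refine Finset.sum_congr rfl fun o _ => ?_
      by_cases ho : D.deg o = x
      · rw [if_pos ho, if_pos ho, map_zero, add_zero]
      · rw [if_neg ho, if_neg ho, zero_add, map_smul, TxL_apply,
          t6 x (D.deg o) (D.g o) (D.χu _ (hne x o ho)) (D.gy o)]
        rw [Finset.sum_eq_single (l - 1)]
        · rw [Nat.sub_self, pow_zero, mul_one]
        · intro i hi hi2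
          have hi' := Finset.mem_range.1 hi
          rw [h1 x a ha o _ ho (by omega), zero_smul]
        · intro hcon
          exact absurd (Finset.mem_range.2 (by omega)) hcon
    · refine Finset.sum_congr rfl fun o _ => ?_
      rw [map_sum, free_part D.yl (D.χl x) haj]
      refine Finset.sum_congr rfl fun s _ => ?_
      rw [map_smul, TxL_apply]
  refine ⟨h1, h2, ?_⟩
  -- (3)
  intro x a ha
  obtain ⟨b, hb⟩ := h2 x a ha
  have hpow : ∀ (n : A), n ∈ Nx y χ x → ∀ i, y ^ i * n ∈ Nx y χ x := by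
    intro n hn i
    induction i with
    | zero => rw [pow_zero, one_mul]; exact hn
    | succ i ih =>
      rw [pow_succ', mul_assoc]
      exact (t5 x _ ih).1
  have e1 : a - (∑ o, if D.deg o = x then D.d.lam (D.g' o * y ^ (l - 1) * a) • D.g o else 0) =
      (∑ o, if D.deg o = x then ∑ i ∈ Finset.range (l - 1),
        D.d.lam (D.g' o * y ^ (l - 1 - (i + 1)) * a) • (y * (y ^ i * D.g o)) else 0) +
        Tx y l (χ x) b := by
    conv_lhs => rw [hb]
    rw [sub_eq_iff_eq_add, add_right_comm, ← Finset.sum_add_distrib]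
    congr 1
    refine Finset.sum_congr rfl fun o _ => ?_
    by_cases ho : D.deg o = x
    · rw [if_pos ho, if_pos ho, if_pos ho]
      conv_lhs => rw [show Finset.range l = Finset.range (l - 1 + 1) by
        rw [Nat.sub_add_cancel hl1]]
      rw [Finset.sum_range_succ', Nat.sub_zero, pow_zero, one_mul, ← hb]
      congr 1
      refine Finset.sum_congr rfl fun i _ => ?_
      rw [pow_succ' y i, mul_assoc y]
    · rw [if_neg ho, if_neg ho, if_neg ho, add_zero]
  rw [e1]
  refine Submodule.add_mem _ (Submodule.sum_mem _ fun o _ => ?_)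
    (Submodule.subset_span (Or.inl ⟨b, rfl⟩))
  by_cases ho : D.deg o = x
  · rw [if_pos ho]
    refine Submodule.sum_mem _ fun i _ => Submodule.smul_mem _ _ ?_
    refine Submodule.subset_span (Or.inr ⟨y ^ i * D.g o, hpow _ ?_ i, rfl⟩)
    rw [← ho]
    exact D.gy o
  · rw [if_neg ho]
    exact Submodule.zero_mem _

end Pool.Agent.PFE.H77
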