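import Pool.Agent.PFE.StmtsE2b

/-!
# Squad PFE, row SFR (helper77): a Frobenius system over a principal ideal domain
-/

set_option autoImplicit false

open scoped BigOperators

noncomputable section

namespace Pool.Agent.PFE.H77

open Pool.Agent.PFC.B1 (FS)

/-- SFR -/
theorem sfr : SfrStmt := by
  intro R S I _ _ _ _ _ _ D
  have hfin : Module.Finite R S := by
    refine Module.Finite.of_surjective
      (∑ i, (LinearMap.proj i : (I → R) →ₗ[R] R).smulRight (D.b i)) ?_
    intro x
    refine ⟨fun i => D.lam (D.b' i * x), ?_⟩
    rw [LinearMap.sum_apply]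
    exact D.h1 x
  have htf : Module.IsTorsionFree R S := by
    apply Module.IsTorsionFree.of_smul_eq_zero
    intro r s h
    by_cases hr : r = 0
    · exact Or.inl hr
    · right
      rw [← D.h1 s]
      refine Finset.sum_eq_zero fun i _ => ?_
      have h1 : r * D.lam (D.b' i * s) = 0 := by
        rw [← smul_eq_mul, ← map_smul, ← mul_smul_comm, h, mul_zero, map_zero]
      rw [(mul_eq_zero.1 h1).resolve_left hr, zero_smul]
  exact ⟨hfin, inferInstance⟩

end Pool.Agent.PFE.H77
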